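import Mathlib

set_option autoImplicit false

namespace Pool.Agent.Results.MP_0b62d6_lc.Equiv

open Set Order

universe u

/-- Boolean `𝔪`-algebras: every family of at most `𝔪` elements has a join and a meet. -/
def IsMAlgebra (𝔪 : Cardinal.{u}) (A : Type u) [BooleanAlgebra A] : Prop :=
  ∀ S : Set A, Cardinal.mk S ≤ 𝔪 → (∃ x, IsLUB S x) ∧ (∃ x, IsGLB S x)

/-- `𝔪`-homomorphisms: Boolean homomorphisms preserving joins and meets of families of at most
`𝔪` elements. -/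
def IsMHom (𝔪 : Cardinal.{u}) {A B : Type u} [BooleanAlgebra A] [BooleanAlgebra B]
    (g : BoundedLatticeHom A B) : Prop :=
  ∀ S : Set A, Cardinal.mk S ≤ 𝔪 → ∀ x : A,
    (IsLUB S x → IsLUB (g '' S) (g x)) ∧ (IsGLB S x → IsGLB (g '' S) (g x))

/-- A subalgebra is `𝔪`-closed if it contains the joins and meets of its families of at most `𝔪`
elements. -/
def IsMClosed (𝔪 : Cardinal.{u}) {A : Type u} [BooleanAlgebra A] (L : BooleanSubalgebra A) : Prop :=
  ∀ S : Set A, S ⊆ (L : Set A) → Cardinal.mk S ≤ 𝔪 → ∀ x : A,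
    (IsLUB S x → x ∈ L) ∧ (IsGLB S x → x ∈ L)

/-- `A₀` `𝔪`-generates `A`: the only `𝔪`-closed subalgebra containing `A₀` is `A`. -/
def MGenerates (𝔪 : Cardinal.{u}) {A : Type u} [BooleanAlgebra A] (A₀ : BooleanSubalgebra A) :
    Prop :=
  ∀ L : BooleanSubalgebra A, (A₀ : Set A) ⊆ L → IsMClosed 𝔪 L → ∀ x : A, x ∈ L

/-- Condition (a'): families of at most `𝔪` elements of `A₀` with meet zero in `A` are mapped to
families with meet zero. -/
def CondA (𝔪 : Cardinal.{u}) {A B : Type u} [BooleanAlgebra A] [BooleanAlgebra B]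
    {A₀ : BooleanSubalgebra A} (f : BoundedLatticeHom A₀ B) : Prop :=
  ∀ S : Set A₀, Cardinal.mk S ≤ 𝔪 → IsGLB (Subtype.val '' S) (⊥ : A) → IsGLB (f '' S) (⊥ : B)

/-- The weak `𝔪`-extension property. -/
def WeakExtension (𝔪 : Cardinal.{u}) (B : Type u) [BooleanAlgebra B] : Prop :=
  ∀ (A : Type u) [BooleanAlgebra A], IsMAlgebra 𝔪 A → ∀ A₀ : BooleanSubalgebra A,
    MGenerates 𝔪 A₀ → ∀ f : BoundedLatticeHom A₀ B, CondA 𝔪 f →
      ∃ g : BoundedLatticeHom A B, IsMHom 𝔪 g ∧ ∀ x : A₀, g (x : A) = f x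

/-- Weak `𝔪`-distributivity. -/
def WeaklyDistributive (𝔪 : Cardinal.{u}) (B : Type u) [BooleanAlgebra B] : Prop :=
  ∀ (T S : Type u), Cardinal.mk T ≤ 𝔪 → Cardinal.mk S ≤ 𝔪 → ∀ a : T → S → B,
    (∀ t, IsLUB (range (a t)) ⊤) →
      IsLUB {c : B | ∃ Φ : T → Finset S, (∀ t, (Φ t).Nonempty) ∧
        IsGLB (range fun t => (Φ t).sup (a t)) c} ⊤

section

variable {B : Type u} [BooleanAlgebra B]

theorem notMem_or_of_sup {J : Ideal B} {x y : B} : x ⊔ y ∉ J ↔ x ∉ J ∨ y ∉ J := by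
  rw [Ideal.sup_mem_iff]; tauto

theorem compl_notMem {J : Ideal B} (hJ : J.IsPrime) {x : B} : xᶜ ∉ J ↔ x ∈ J := by
  constructor
  · intro h
    rcases hJ.mem_or_compl_mem (x := x) with h1 | h1
    · exact h1
    · exact absurd h1 h
  · intro h h1
    have h2 := Ideal.sup_mem h h1
    rw [sup_compl_eq_top] at h2
    have := hJ.toIsProper
    exact this.top_notMem h2

theorem inf_notMem {J : Ideal B} (hJ : J.IsPrime) {x y : B} : x ⊓ y ∉ J ↔ x ∉ J ∧ y ∉ J := by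
  constructor
  · intro h
    exact ⟨fun hx => h (J.lower inf_le_left hx), fun hy => h (J.lower inf_le_right hy)⟩
  · rintro ⟨hx, hy⟩ h
    rcases hJ.mem_or_mem h with h1 | h1
    · exact hx h1
    · exact hy h1

/-- A prime ideal avoiding `b` and containing a given directed family of elements not above `b`. -/
theorem exists_prime {ι : Type u} [Nonempty ι] (b : B) (c : ι → B) (hdir : Directed (· ≤ ·) c)
    (hb : ∀ i, ¬ b ≤ c i) : ∃ J : Ideal B, J.IsPrime ∧ b ∉ J ∧ ∀ i, c i ∈ J := by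
  let I : Ideal B := {
    carrier := {x | ∃ i, x ≤ c i}
    lower' := fun x y hyx ⟨i, hi⟩ => ⟨i, hyx.trans hi⟩
    nonempty' := ⟨c (Classical.arbitrary ι), Classical.arbitrary ι, le_rfl⟩
    directed' := by
      rintro x ⟨i, hi⟩ y ⟨j, hj⟩
      obtain ⟨k, hik, hjk⟩ := hdir i j
      exact ⟨c k, ⟨k, le_rfl⟩, hi.trans hik, hj.trans hjk⟩ }
  have hdis : Disjoint ((PFilter.principal b : PFilter B) : Set B) (I : Set B) := by
    rw [Set.disjoint_left]
    rintro x hx ⟨i, hi⟩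
    have hx' : b ≤ x := PFilter.mem_principal.mp hx
    exact hb i (hx'.trans hi)
  obtain ⟨J, hJ, hIJ, hdJ⟩ := DistribLattice.prime_ideal_of_disjoint_filter_ideal hdis
  refine ⟨J, hJ, ?_, fun i => hIJ ⟨i, le_rfl⟩⟩
  intro h
  exact Set.disjoint_left.mp hdJ (PFilter.mem_principal.mpr le_rfl) h

end

/-- A Boolean `𝔪`-algebra with the weak `𝔪`-extension property is weakly `𝔪`-distributive. -/
theorem weaklyDistributive_of_weakExtension (𝔪 : Cardinal.{u}) (B : Type u) [BooleanAlgebra B]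
    (hB : IsMAlgebra 𝔪 B) (hext : WeakExtension 𝔪 B) : WeaklyDistributive 𝔪 B := by
  classical
  intro T S hT hS a ha
  refine ⟨fun _ _ => le_top, fun w hw => ?_⟩
  rw [top_le_iff]
  by_contra hne
  -- the element `wᶜ` is nonzero and disjoint from all `A_Φ`
  have hd0 : wᶜ ≠ ⊥ := fun h => hne (compl_eq_bot.mp h)
  have hdis : ∀ Φ : T → Finset S, (∀ t, (Φ t).Nonempty) → ∀ b : B, b ≤ wᶜ →
      (∀ t, b ≤ (Φ t).sup (a t)) → b = ⊥ := by
    intro Φ hΦ b hb hle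
    obtain ⟨-, c, hc⟩ := hB (range fun t => (Φ t).sup (a t)) (Cardinal.mk_range_le.trans hT)
    have h1 : c ≤ w := hw ⟨Φ, hΦ, hc⟩
    have h2 : b ≤ c := hc.2 (by rintro _ ⟨t, rfl⟩; exact hle t)
    rw [← le_bot_iff]
    calc b ≤ w ⊓ wᶜ := le_inf (h2.trans h1) hb
      _ = ⊥ := inf_compl_self w
  -- the set of points
  let Q : Type u := {J : Ideal B // J.IsPrime ∧ (wᶜ ∉ J → ∃ t, ∀ s, a t s ∈ J)}
  let E : B → Set Q := fun b => {J | b ∉ J.1}
  have hE1 : ∀ b c, E (b ⊔ c) = E b ∪ E c := by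
    intro b c; ext J; exact notMem_or_of_sup
  have hE2 : ∀ b c, E (b ⊓ c) = E b ∩ E c := by
    intro b c; ext J; exact inf_notMem J.2.1
  have hE3 : ∀ b, E bᶜ = (E b)ᶜ := by
    intro b; ext J
    change bᶜ ∉ J.1 ↔ ¬ (b ∉ J.1)
    rw [compl_notMem J.2.1, not_not]
  have hE4 : E ⊥ = ∅ := by
    ext J; simp [E]
  -- density of the set of points
  have hdense : ∀ b, E b = ∅ → b = ⊥ := by
    intro b hb
    by_contra hb0
    have hbw : b ≤ wᶜ := by
      by_contra hcon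
      obtain ⟨J, hJ, h1, h2⟩ := exists_prime (ι := PUnit) b (fun _ => wᶜ)
        (directed_of_isDirected_le (fun _ _ _ => le_rfl)) (fun _ => hcon)
      have : (⟨J, hJ, fun h => absurd (h2 PUnit.unit) h⟩ : Q) ∈ E b := h1
      rw [hb] at this
      exact this
    have hΦ : ∀ t, ∃ F : Finset S, b ≤ F.sup (a t) := by
      intro t
      by_contra hcon
      push Not at hcon
      obtain ⟨J, hJ, h1, h2⟩ := exists_prime (ι := Finset S) b (fun F => F.sup (a t))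
        (Monotone.directed_le (fun F G hFG => Finset.sup_mono hFG)) hcon
      have : (⟨J, hJ, fun _ => ⟨t, fun s => by simpa using h2 {s}⟩⟩ : Q) ∈ E b := h1
      rw [hb] at this
      exact this
    choose F hF using hΦ
    by_cases hSe : Nonempty S
    · obtain ⟨s₀⟩ := hSe
      refine hb0 (hdis (fun t => insert s₀ (F t)) (fun t => Finset.insert_nonempty _ _) b hbw
        (fun t => (hF t).trans (Finset.sup_mono (Finset.subset_insert _ _))))
    · by_cases hTe : Nonempty T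
      · obtain ⟨t⟩ := hTe
        have h1 : F t = ∅ := by
          rw [Finset.eq_empty_iff_forall_notMem]
          intro s; exact (hSe ⟨s⟩).elim
        have h2 := hF t
        rw [h1, Finset.sup_empty, le_bot_iff] at h2
        exact hb0 h2
      · exact hb0 (hdis (fun t => ∅) (fun t => (hTe ⟨t⟩).elim) b hbw (fun t => (hTe ⟨t⟩).elim))
  have hEle : ∀ b c, E b ⊆ E c → b ≤ c := by
    intro b c h
    rw [← sdiff_eq_bot_iff]
    apply hdense
    rw [_root_.sdiff_eq, hE2, hE3]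
    ext J; constructor
    · rintro ⟨h1, h2⟩; exact h2 (h h1)
    · intro h; exact h.elim
  have hEmono : ∀ b c, b ≤ c → E b ⊆ E c := fun b c h J hJ h1 => hJ (J.1.lower h h1)
  -- the field of sets
  let L : BooleanSubalgebra (Set Q) :=
    { carrier := {C | ∀ M : BooleanSubalgebra (Set Q),
        (∀ 𝒮 : Set (Set Q), 𝒮 ⊆ (M : Set (Set Q)) → Cardinal.mk 𝒮 ≤ 𝔪 → ⋃₀ 𝒮 ∈ M) →
        (∀ b, E b ∈ M) → C ∈ M}
      supClosed' := fun _ hC _ hD M h1 h2 => M.supClosed (hC M h1 h2) (hD M h1 h2)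
      infClosed' := fun _ hC _ hD M h1 h2 => M.infClosed (hC M h1 h2) (hD M h1 h2)
      compl_mem' := fun hC M h1 h2 => BooleanSubalgebra.compl_mem (hC M h1 h2)
      bot_mem' := fun M _ _ => BooleanSubalgebra.bot_mem }
  have hLE : ∀ b, E b ∈ L := fun b M _ h2 => h2 b
  have hLU : ∀ 𝒮 : Set (Set Q), 𝒮 ⊆ (L : Set (Set Q)) → Cardinal.mk 𝒮 ≤ 𝔪 → ⋃₀ 𝒮 ∈ L := by
    intro 𝒮 h1 h2 M h3 h4
    exact h3 𝒮 (fun C hC => h1 hC M h3 h4) h2
  have hLUB : ∀ 𝒮 : Set L, Cardinal.mk 𝒮 ≤ 𝔪 → ∃ x : L, IsLUB 𝒮 x ∧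
      (x : Set Q) = ⋃₀ (Subtype.val '' 𝒮) := by
    intro 𝒮 h𝒮
    refine ⟨⟨⋃₀ (Subtype.val '' 𝒮), hLU _ ?_ (Cardinal.mk_image_le.trans h𝒮)⟩, ⟨?_, ?_⟩, rfl⟩
    · rintro _ ⟨x, -, rfl⟩; exact x.2
    · intro x hx
      change (x : Set Q) ⊆ _
      exact subset_sUnion_of_mem ⟨x, hx, rfl⟩
    · intro y hy
      change _ ⊆ (y : Set Q)
      refine sUnion_subset ?_
      rintro _ ⟨x, hx, rfl⟩
      exact hy hx
  have hcompl : ∀ (𝒮 : Set L) (x : L), IsLUB (compl '' 𝒮) x → IsGLB 𝒮 xᶜ := by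
    intro 𝒮 x hx
    constructor
    · intro y hy
      rw [compl_le_iff_compl_le]
      exact hx.1 ⟨y, hy, rfl⟩
    · intro y hy
      rw [le_compl_iff_le_compl]
      apply hx.2
      rintro _ ⟨z, hz, rfl⟩
      exact compl_le_compl (hy hz)
  have hLM : IsMAlgebra 𝔪 L := by
    intro 𝒮 h𝒮
    refine ⟨?_, ?_⟩
    · obtain ⟨x, hx, -⟩ := hLUB 𝒮 h𝒮
      exact ⟨x, hx⟩
    · obtain ⟨x, hx, -⟩ := hLUB (compl '' 𝒮) (Cardinal.mk_image_le.trans h𝒮)
      exact ⟨xᶜ, hcompl 𝒮 x hx⟩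
  -- the subalgebra and the homomorphism
  let A₀ : BooleanSubalgebra L :=
    { carrier := {x | ∃ b, (x : Set Q) = E b}
      supClosed' := by
        rintro x ⟨b, hb⟩ y ⟨c, hc⟩
        refine ⟨b ⊔ c, ?_⟩
        rw [hE1, ← hb, ← hc]; rfl
      infClosed' := by
        rintro x ⟨b, hb⟩ y ⟨c, hc⟩
        refine ⟨b ⊓ c, ?_⟩
        rw [hE2, ← hb, ← hc]; rfl
      compl_mem' := by
        rintro x ⟨b, hb⟩
        refine ⟨bᶜ, ?_⟩
        rw [hE3, ← hb]; rfl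
      bot_mem' := ⟨⊥, by rw [hE4]; rfl⟩ }
  let e : B ≃o A₀ := 
    { toFun := fun b => ⟨⟨E b, hLE b⟩, b, rfl⟩
      invFun := fun x => x.2.choose
      left_inv := fun b => by
        have h : ∃ c, E b = E c := ⟨b, rfl⟩
        have h1 : E b = E h.choose := h.choose_spec
        exact le_antisymm (hEle _ _ h1.symm.subset) (hEle _ _ h1.subset)
      right_inv := fun x => by
        apply Subtype.ext
        apply Subtype.ext
        exact x.2.choose_spec.symm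
      map_rel_iff' := fun {b c} => ⟨fun h => hEle b c h, fun h => hEmono b c h⟩ }
  let f : BoundedLatticeHom A₀ B := (e.symm : BoundedLatticeHom A₀ B)
  have hf : ∀ b (hb : (⟨E b, hLE b⟩ : L) ∈ A₀), f ⟨⟨E b, hLE b⟩, hb⟩ = b := fun b _ => e.symm_apply_apply b
  have hf2 : ∀ x : A₀, ((x : L) : Set Q) = E (f x) := by
    intro x
    have h1 : e (f x) = x := e.apply_symm_apply x
    conv_lhs => rw [← h1]
    rfl
  have hcond : CondA 𝔪 f := by
    intro 𝒮 _ hglb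
    refine ⟨fun _ _ => bot_le, fun b hb => ?_⟩
    rw [le_bot_iff]
    apply hdense
    have h1 : (⟨E b, hLE b⟩ : L) ≤ ⊥ := by
      apply hglb.2
      rintro _ ⟨x, hx, rfl⟩
      change E b ⊆ ((x : L) : Set Q)
      rw [hf2 x]
      exact hEmono _ _ (hb ⟨x, hx, rfl⟩)
    exact subset_empty_iff.mp h1
  have hgen : MGenerates 𝔪 A₀ := by
    intro M hM1 hM2 x
    let M' : BooleanSubalgebra (Set Q) :=
      { carrier := {C | ∃ h : C ∈ L, (⟨C, h⟩ : L) ∈ M}
        supClosed' := by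
          rintro C ⟨h1, h2⟩ D ⟨h3, h4⟩
          exact ⟨L.supClosed h1 h3, M.supClosed h2 h4⟩
        infClosed' := by
          rintro C ⟨h1, h2⟩ D ⟨h3, h4⟩
          exact ⟨L.infClosed h1 h3, M.infClosed h2 h4⟩
        compl_mem' := by
          rintro C ⟨h1, h2⟩
          exact ⟨BooleanSubalgebra.compl_mem h1, BooleanSubalgebra.compl_mem h2⟩
        bot_mem' := ⟨BooleanSubalgebra.bot_mem, BooleanSubalgebra.bot_mem⟩ }
    have h1 : (x : Set Q) ∈ M' := by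
      apply x.2 M'
      · intro 𝒮 h𝒮 hcard
        let 𝒯 : Set L := {y | (y : Set Q) ∈ 𝒮}
        have h2 : Cardinal.mk 𝒯 ≤ 𝔪 := by
          refine le_trans ?_ hcard
          exact Cardinal.mk_le_of_injective (f := fun y : 𝒯 => (⟨(y : L), y.2⟩ : 𝒮))
            (fun y z hyz => by
              have h := congrArg (fun w : 𝒮 => (w : Set Q)) hyz
              exact Subtype.ext (Subtype.ext h))
        obtain ⟨y, hy1, hy2⟩ := hLUB 𝒯 h2
        have h3 : Subtype.val '' 𝒯 = 𝒮 := by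
          ext C; constructor
          · rintro ⟨z, hz, rfl⟩; exact hz
          · intro hC
            obtain ⟨h4, h5⟩ := h𝒮 hC
            exact ⟨⟨C, h4⟩, hC, rfl⟩
        rw [h3] at hy2
        have h6 : y ∈ M := (hM2 𝒯 (by
          intro z hz
          obtain ⟨h4, h5⟩ := h𝒮 hz
          exact h5) h2 y).1 hy1
        rw [← hy2]
        exact ⟨y.2, h6⟩
      · intro b
        exact ⟨hLE b, hM1 ⟨b, rfl⟩⟩
    obtain ⟨h2, h3⟩ := h1
    exact h3
  obtain ⟨g, hg1, hg2⟩ := hext L hLM A₀ hgen f hcond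
  have hgE : ∀ b, g ⟨E b, hLE b⟩ = b := by
    intro b
    have h1 := hg2 ⟨⟨E b, hLE b⟩, b, rfl⟩
    rw [hf b] at h1
    exact h1
  -- the elements `D t`
  have hD : ∀ t, ∃ D : L, g D = ⊥ ∧ ∀ J : Q, (∀ s, a t s ∈ J.1) → J ∈ (D : Set Q) := by
    intro t
    obtain ⟨U, hU1, hU2⟩ := hLUB (range fun s => (⟨E (a t s), hLE _⟩ : L))
      (Cardinal.mk_range_le.trans hS)
    have h1 := (hg1 _ (Cardinal.mk_range_le.trans hS) U).1 hU1
    have h2 : g U = ⊤ := by
      apply top_le_iff.mp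
      refine (ha t).2 ?_
      rintro _ ⟨s, rfl⟩
      have h3 := h1.1 ⟨_, ⟨s, rfl⟩, rfl⟩
      rwa [hgE] at h3
    refine ⟨Uᶜ, ?_, fun J hJ => ?_⟩
    · rw [map_compl', h2, compl_top]
    · change J ∉ (U : Set Q)
      rw [hU2]
      rintro ⟨_, ⟨_, ⟨s, rfl⟩, rfl⟩, h3⟩
      exact h3 (hJ s)
  choose D hD1 hD2 using hD
  obtain ⟨V, hV1, hV2⟩ := hLUB (range D) (Cardinal.mk_range_le.trans hT)
  have h1 := (hg1 _ (Cardinal.mk_range_le.trans hT) V).1 hV1
  have h2 : g V = ⊥ := by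
    apply le_bot_iff.mp
    apply h1.2
    rintro _ ⟨_, ⟨t, rfl⟩, rfl⟩
    rw [hD1]
  have h3 : (⟨E wᶜ, hLE _⟩ : L) ≤ V := by
    change E wᶜ ⊆ (V : Set Q)
    intro J hJ
    obtain ⟨t, ht⟩ := J.2.2 hJ
    rw [hV2]
    exact ⟨(D t : Set Q), ⟨D t, ⟨t, rfl⟩, rfl⟩, hD2 t J ht⟩
  have h4 : g ⟨E wᶜ, hLE _⟩ ≤ g V := OrderHomClass.mono g h3
  rw [hgE, h2, le_bot_iff] at h4
  exact hd0 h4

/-- **Main theorem.** For no infinite cardinal `𝔪` is there a Boolean `𝔪`-algebra that has the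
weak `𝔪`-extension property but is not weakly `𝔪`-distributive. -/
theorem result (𝔪 : Cardinal.{u}) (_h𝔪 : Cardinal.aleph0 ≤ 𝔪) :
    ¬ ∃ (B : Type u) (_ : BooleanAlgebra B), IsMAlgebra 𝔪 B ∧ WeakExtension 𝔪 B ∧
      ¬ WeaklyDistributive 𝔪 B := by
  rintro ⟨B, _, h1, h2, h3⟩
  exact h3 (weaklyDistributive_of_weakExtension 𝔪 B h1 h2)

end Pool.Agent.Results.MP_0b62d6_lc.Equiv
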