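import Mathlib

set_option autoImplicit false

universe u

namespace Pool.Agent.Results.MP_0b62d6_lc.WeakExtension

/-- `A` is a Boolean `m`-algebra: every set of at most `m` elements has a join and a meet. -/
def IsMAlgebra (m : Cardinal.{u}) (A : Type u) [BooleanAlgebra A] : Prop :=
  ∀ s : Set A, Cardinal.mk s ≤ m → (∃ a, IsLUB s a) ∧ (∃ a, IsGLB s a)

/-- A Boolean homomorphism is an `m`-homomorphism if it preserves all joins and meets of sets of
at most `m` elements. -/
def IsMHom (m : Cardinal.{u}) {A B : Type u} [BooleanAlgebra A] [BooleanAlgebra B]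
    (h : BoundedLatticeHom A B) : Prop :=
  ∀ s : Set A, Cardinal.mk s ≤ m → ∀ a,
    (IsLUB s a → IsLUB (h '' s) (h a)) ∧ (IsGLB s a → IsGLB (h '' s) (h a))

/-- The subalgebra `A₀` `m`-generates `A`: the only subalgebra containing `A₀` and closed under
joins and meets of sets of at most `m` elements is `A` itself. -/
def MGenerates (m : Cardinal.{u}) {A : Type u} [BooleanAlgebra A]
    (A₀ : BooleanSubalgebra A) : Prop :=
  ∀ C : BooleanSubalgebra A, A₀ ≤ C →
    (∀ s : Set A, s ⊆ (C : Set A) → Cardinal.mk s ≤ m → ∀ a, (IsLUB s a ∨ IsGLB s a) → a ∈ C) →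
      C = ⊤

/-- Condition (a'): every set of at most `m` elements of `A₀` whose meet in `A` is `0` is sent by
`f` to a set whose meet in `B` is `0`. -/
def ConditionA (m : Cardinal.{u}) {A B : Type u} [BooleanAlgebra A] [BooleanAlgebra B]
    (A₀ : BooleanSubalgebra A) (f : BoundedLatticeHom A₀ B) : Prop :=
  ∀ s : Set A₀, Cardinal.mk s ≤ m → IsGLB ((fun x : A₀ => (x : A)) '' s) ⊥ → IsGLB (f '' s) ⊥

/-- The weak `m`-extension property. -/
def WeakExtensionProperty (m : Cardinal.{u}) (B : Type u) [BooleanAlgebra B] : Prop :=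
  ∀ (A : Type u) [BooleanAlgebra A], IsMAlgebra m A →
    ∀ A₀ : BooleanSubalgebra A, MGenerates m A₀ →
      ∀ f : BoundedLatticeHom A₀ B, ConditionA m A₀ f →
        ∃ h : BoundedLatticeHom A B, IsMHom m h ∧ ∀ x : A₀, h (x : A) = f x

/-- Weak `m`-distributivity. -/
def WeaklyDistributive (m : Cardinal.{u}) (B : Type u) [BooleanAlgebra B] : Prop :=
  ∀ (T S : Type u), Cardinal.mk T ≤ m → Cardinal.mk S ≤ m → ∀ a : T → S → B,
    (∀ t, IsLUB (Set.range (a t)) ⊤) →
      IsLUB {b : B | ∃ Φ : T → Finset S, (∀ t, (Φ t).Nonempty) ∧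
        IsGLB (Set.range fun t => (Φ t).sup (a t)) b} ⊤

section Construction

variable {B : Type u} [BooleanAlgebra B] {T S : Type u} (c : B) (a : T → S → B)

/-- The set of points: prime ideals `P` with `c ∈ P` or with `a t s ∈ P` for all `s`, for some
`t`. -/
def Pt : Type u :=
  {P : Order.Ideal B // P.IsPrime ∧ (c ∈ P ∨ ∃ t, ∀ s, a t s ∈ P)}

/-- The set of points at which `x` holds. -/
def tr (x : B) : Set (Pt c a) := {P | x ∉ P.1}

lemma tr_bot : tr c a ⊥ = ∅ := by
  ext P
  simp [tr]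

lemma tr_top : tr c a ⊤ = Set.univ := by
  ext P
  have h := P.2.1.toIsProper
  simp only [tr, Set.mem_ofPred_eq, Set.mem_univ, iff_true]
  exact fun h' => h.top_notMem h'

lemma tr_sup (x y : B) : tr c a (x ⊔ y) = tr c a x ∪ tr c a y := by
  ext P
  simp only [tr, Set.mem_ofPred_eq, Set.mem_union, Order.Ideal.sup_mem_iff]
  tauto

lemma tr_inf (x y : B) : tr c a (x ⊓ y) = tr c a x ∩ tr c a y := by
  ext P
  simp only [tr, Set.mem_ofPred_eq, Set.mem_inter_iff]
  constructor
  · intro h
    exact ⟨fun hx => h (P.1.lower inf_le_left hx), fun hy => h (P.1.lower inf_le_right hy)⟩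
  · rintro ⟨hx, hy⟩ h
    rcases P.2.1.mem_or_mem h with h | h
    · exact hx h
    · exact hy h

lemma tr_compl (x : B) : tr c a xᶜ = (tr c a x)ᶜ := by
  have h1 : tr c a x ∩ tr c a xᶜ = ∅ := by
    rw [← tr_inf, inf_compl_eq_bot, tr_bot]
  have h2 : tr c a x ∪ tr c a xᶜ = Set.univ := by
    rw [← tr_sup, sup_compl_eq_top, tr_top]
  ext P
  constructor
  · intro h h'
    have : P ∈ tr c a x ∩ tr c a xᶜ := ⟨h', h⟩
    rw [h1] at this
    exact this
  · intro h
    have : P ∈ tr c a x ∪ tr c a xᶜ := by rw [h2]; trivial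
    rcases this with h' | h'
    · exact absurd h' h
    · exact h'

/-- Separation: if `x` is not below anything in the ideal `I`, there is a prime ideal containing
`I` but not `x`. -/
lemma exists_prime (I : Order.Ideal B) (x : B) (hx : x ∉ I) :
    ∃ P : Order.Ideal B, P.IsPrime ∧ I ≤ P ∧ x ∉ P := by
  have hd : Disjoint ((Order.PFilter.principal x : Order.PFilter B) : Set B) (I : Set B) := by
    rw [Set.disjoint_left]
    intro y hy hyI
    exact hx (I.lower (Order.PFilter.mem_principal.1 hy) hyI)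
  obtain ⟨P, hP, hIP, hdP⟩ := DistribLattice.prime_ideal_of_disjoint_filter_ideal hd
  exact ⟨P, hP, hIP, fun h => (Set.disjoint_left.1 hdP)
    (Order.PFilter.mem_principal.2 le_rfl) h⟩

/-- The ideal generated by a family. -/
def famIdeal (b : S → B) : Order.Ideal B :=
  (show Order.IsIdeal {x : B | ∃ F : Finset S, x ≤ F.sup b} from
    { IsLowerSet := by
        rintro x y hyx ⟨F, hF⟩
        exact ⟨F, hyx.trans hF⟩
      Nonempty := ⟨⊥, ∅, bot_le⟩
      Directed := by
        classical
        rintro x ⟨F, hF⟩ y ⟨G, hG⟩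
        refine ⟨x ⊔ y, ⟨F ∪ G, ?_⟩, le_sup_left, le_sup_right⟩
        rw [Finset.sup_union]
        exact sup_le_sup hF hG }).toIdeal

lemma mem_famIdeal (b : S → B) (x : B) : x ∈ famIdeal b ↔ ∃ F : Finset S, x ≤ F.sup b :=
  Iff.rfl

/-- The compactness lemma. -/
lemma key (hc : ∀ Φ : T → Finset S, (∀ t, (Φ t).Nonempty) → ∀ x : B,
      (∀ t, x ≤ (Φ t).sup (a t)) → x ≤ c → x = ⊥)
    (s : Set B) (hs : ∀ P : Pt c a, ∃ y ∈ s, P ∉ tr c a y) : IsGLB s ⊥ := by
  classical
  refine ⟨fun y _ => bot_le, ?_⟩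
  intro x hx
  -- first, `x ≤ c`
  have hxc : x ≤ c := by
    by_contra hxc
    obtain ⟨P, hP, hIP, hxP⟩ := exists_prime (Order.Ideal.principal c) x
      (fun h => hxc (Order.Ideal.mem_principal.1 h))
    obtain ⟨y, hys, hy⟩ := hs ⟨P, hP, Or.inl (hIP (Order.Ideal.mem_principal.2 le_rfl))⟩
    have hyP : y ∈ P := by
      by_contra hyP
      exact hy hyP
    exact hxP (P.lower (hx hys) hyP)
  have hF : ∀ t, ∃ F : Finset S, x ≤ F.sup (a t) := by
    intro t
    by_contra hcon
    obtain ⟨P, hP, hIP, hxP⟩ := exists_prime (famIdeal (a t)) x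
      (fun h => hcon ((mem_famIdeal _ _).1 h))
    have hmem : ∀ s', a t s' ∈ P := fun s' =>
      hIP ((mem_famIdeal _ _).2 ⟨{s'}, by simp⟩)
    obtain ⟨y, hys, hy⟩ := hs ⟨P, hP, Or.inr ⟨t, hmem⟩⟩
    have hyP : y ∈ P := by
      by_contra hyP
      exact hy hyP
    exact hxP (P.lower (hx hys) hyP)
  choose F hF using hF
  rcases isEmpty_or_nonempty S with hS | ⟨⟨s₀⟩⟩
  · rcases isEmpty_or_nonempty T with hT | ⟨⟨t₀⟩⟩
    · exact (hc F (fun t => (hT.false t).elim) x (fun t => hF t) hxc).le
    · have h0 : F t₀ = ∅ := Finset.eq_empty_of_isEmpty _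
      have := hF t₀
      rw [h0, Finset.sup_empty] at this
      exact this
  · refine (hc (fun t => insert s₀ (F t)) (fun t => Finset.insert_nonempty _ _) x ?_ hxc).le
    intro t
    exact (hF t).trans (Finset.sup_mono (Finset.subset_insert _ _))

end Construction

section Field

variable {B : Type u} [BooleanAlgebra B] {T S : Type u} (m : Cardinal.{u}) (c : B)
  (a : T → S → B)

/-- The `m`-field of sets of points generated by the sets `tr c a x`. -/
def fld : BooleanSubalgebra (Set (Pt c a)) where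
  carrier := {x | ∀ F : BooleanSubalgebra (Set (Pt c a)), (∀ b : B, tr c a b ∈ F) →
    (∀ s : Set (Set (Pt c a)), s ⊆ (F : Set (Set (Pt c a))) → Cardinal.mk s ≤ m → ⋃₀ s ∈ F) →
      x ∈ F}
  supClosed' := fun _ hx _ hy F h1 h2 => F.sup_mem (hx F h1 h2) (hy F h1 h2)
  infClosed' := fun _ hx _ hy F h1 h2 => F.inf_mem (hx F h1 h2) (hy F h1 h2)
  compl_mem' := fun hx F h1 h2 => F.compl_mem (hx F h1 h2)
  bot_mem' := fun F _ _ => F.bot_mem

lemma tr_mem_fld (x : B) : tr c a x ∈ fld m c a := fun _ h1 _ => h1 x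

lemma sUnion_mem_fld (s : Set (Set (Pt c a))) (hs : s ⊆ (fld m c a : Set (Set (Pt c a))))
    (hc : Cardinal.mk s ≤ m) : ⋃₀ s ∈ fld m c a :=
  fun F h1 h2 => h2 s (fun _ hx => hs hx F h1 h2) hc

lemma sInter_mem_fld (s : Set (Set (Pt c a))) (hs : s ⊆ (fld m c a : Set (Set (Pt c a))))
    (hc : Cardinal.mk s ≤ m) : ⋂₀ s ∈ fld m c a := by
  have h : (⋃₀ (compl '' s)) ∈ fld m c a := by
    apply sUnion_mem_fld
    · rintro _ ⟨x, hx, rfl⟩
      exact (fld m c a).compl_mem (hs hx)
    · exact Cardinal.mk_image_le.trans hc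
  have h' := (fld m c a).compl_mem h
  rwa [← Set.sInter_eq_compl_sUnion_compl] at h'

/-- The generic embedding. -/
def emb (x : B) : fld m c a := ⟨tr c a x, tr_mem_fld m c a x⟩

lemma isLUB_fld (s : Set (fld m c a)) (x : fld m c a)
    (hx : (x : Set (Pt c a)) = ⋃₀ ((fun y : fld m c a => (y : Set (Pt c a))) '' s)) :
    IsLUB s x := by
  constructor
  · intro y hy
    change (y : Set (Pt c a)) ⊆ x
    rw [hx]
    exact Set.subset_sUnion_of_mem ⟨y, hy, rfl⟩
  · intro z hz
    change (x : Set (Pt c a)) ⊆ z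
    rw [hx]
    apply Set.sUnion_subset
    rintro _ ⟨y, hy, rfl⟩
    exact hz hy

lemma isGLB_fld (s : Set (fld m c a)) (x : fld m c a)
    (hx : (x : Set (Pt c a)) = ⋂₀ ((fun y : fld m c a => (y : Set (Pt c a))) '' s)) :
    IsGLB s x := by
  constructor
  · intro y hy
    change (x : Set (Pt c a)) ⊆ y
    rw [hx]
    exact Set.sInter_subset_of_mem ⟨y, hy, rfl⟩
  · intro z hz
    change (z : Set (Pt c a)) ⊆ x
    rw [hx]
    apply Set.subset_sInter
    rintro _ ⟨y, hy, rfl⟩
    exact hz hy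

lemma fld_isMAlgebra : IsMAlgebra m (fld m c a) := by
  intro s hs
  have hs' : ((fun y : fld m c a => (y : Set (Pt c a))) '' s) ⊆
      (fld m c a : Set (Set (Pt c a))) := by
    rintro _ ⟨y, _, rfl⟩
    exact y.2
  have hc' : Cardinal.mk ((fun y : fld m c a => (y : Set (Pt c a))) '' s) ≤ m :=
    Cardinal.mk_image_le.trans hs
  exact ⟨⟨⟨_, sUnion_mem_fld m c a _ hs' hc'⟩, isLUB_fld m c a s _ rfl⟩,
    ⟨⟨_, sInter_mem_fld m c a _ hs' hc'⟩, isGLB_fld m c a s _ rfl⟩⟩

/-- The subalgebra of generators. -/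
def gens : BooleanSubalgebra (fld m c a) where
  carrier := Set.range (emb m c a)
  supClosed' := by
    rintro _ ⟨x, rfl⟩ _ ⟨y, rfl⟩
    exact ⟨x ⊔ y, Subtype.ext (tr_sup c a x y)⟩
  infClosed' := by
    rintro _ ⟨x, rfl⟩ _ ⟨y, rfl⟩
    exact ⟨x ⊓ y, Subtype.ext (tr_inf c a x y)⟩
  compl_mem' := by
    rintro _ ⟨x, rfl⟩
    exact ⟨xᶜ, Subtype.ext (tr_compl c a x)⟩
  bot_mem' := ⟨⊥, Subtype.ext (tr_bot c a)⟩

lemma gens_generates : MGenerates m (gens m c a) := by
  intro C hC hcl
  rw [eq_top_iff]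
  intro x _
  have hx := x.2 (C.map (fld m c a).subtype) ?_ ?_
  · obtain ⟨y, hy, hyx⟩ := hx
    have : y = x := Subtype.ext hyx
    exact this ▸ hy
  · intro b
    exact ⟨emb m c a b, hC ⟨b, rfl⟩, rfl⟩
  · intro s hs hsm
    have hsf : s ⊆ (fld m c a : Set (Set (Pt c a))) := by
      intro z hz
      obtain ⟨y, _, rfl⟩ := hs hz
      exact y.2
    refine ⟨⟨⋃₀ s, sUnion_mem_fld m c a s hsf hsm⟩, ?_, rfl⟩
    apply hcl {x : fld m c a | (x : Set (Pt c a)) ∈ s}
    · intro z hz
      obtain ⟨y, hy, hyz⟩ := hs hz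
      have : y = z := Subtype.ext hyz
      exact this ▸ hy
    · refine le_trans ?_ hsm
      have hinj : Function.Injective
          (fun z : {x : fld m c a | (x : Set (Pt c a)) ∈ s} => (⟨z.1.1, z.2⟩ : s)) := by
        intro z w h
        simp only [Subtype.mk.injEq] at h
        exact Subtype.ext (Subtype.ext h)
      exact Cardinal.mk_le_of_injective hinj
    · left
      apply isLUB_fld
      have himg : s = (fun y : fld m c a => (y : Set (Pt c a))) ''
          {x : fld m c a | (x : Set (Pt c a)) ∈ s} := by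
        ext z
        constructor
        · intro hz
          exact ⟨⟨z, hsf hz⟩, hz, rfl⟩
        · rintro ⟨y, hy, rfl⟩
          exact hy
      exact congrArg Set.sUnion himg

end Field

theorem result (m : Cardinal.{u}) (_hm : Cardinal.aleph0 ≤ m) (B : Type u) [BooleanAlgebra B]
    (hB : IsMAlgebra m B) (hext : WeakExtensionProperty m B) : WeaklyDistributive m B := by
  classical
  intro T S hT hS a ha
  refine ⟨fun y _ => le_top, ?_⟩
  intro d hd
  by_contra hne
  set c : B := dᶜ with hcdef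
  have hc0 : c ≠ ⊥ := by
    intro h
    apply hne
    have : d = ⊤ := by
      have := congrArg compl h
      rw [hcdef, compl_compl, compl_bot] at this
      exact this
    exact this.ge
  -- nothing below `c` is below all the finite joins
  have hc : ∀ Φ : T → Finset S, (∀ t, (Φ t).Nonempty) → ∀ x : B,
      (∀ t, x ≤ (Φ t).sup (a t)) → x ≤ c → x = ⊥ := by
    intro Φ hΦ x hx hxc
    have hcard : Cardinal.mk (Set.range fun t => (Φ t).sup (a t)) ≤ m :=
      Cardinal.mk_range_le.trans hT
    obtain ⟨_, b, hb⟩ := hB _ hcard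
    have hbd : b ≤ d := hd ⟨Φ, hΦ, hb⟩
    have hxb : x ≤ b := hb.2 (by rintro _ ⟨t, rfl⟩; exact hx t)
    have : x ≤ d ⊓ dᶜ := le_inf (hxb.trans hbd) hxc
    rw [inf_compl_eq_bot] at this
    exact le_bot_iff.1 this
  have hkey := fun s hs => key c a hc s hs
  -- the trace map is injective
  have hinj0 : ∀ x : B, tr c a x = ∅ → x = ⊥ := by
    intro x hx
    have := hkey {x} (fun P => ⟨x, rfl, by rw [hx]; exact fun h => h⟩)
    exact le_bot_iff.1 (this.2 (by rintro _ rfl; exact le_rfl))
  have hle : ∀ x y : B, tr c a x ⊆ tr c a y → x ≤ y := by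
    intro x y hxy
    have h0 : tr c a (x ⊓ yᶜ) = ∅ := by
      rw [tr_inf, tr_compl]
      ext P
      simp only [Set.mem_inter_iff, Set.mem_compl_iff, Set.mem_empty_iff_false, iff_false, not_and,
        not_not]
      exact fun h => hxy h
    have := hinj0 _ h0
    rw [← disjoint_iff, disjoint_compl_right_iff] at this
    exact this
  have hinj : Function.Injective (emb m c a) := by
    intro x y hxy
    have h : tr c a x = tr c a y := congrArg Subtype.val hxy
    exact le_antisymm (hle _ _ h.subset) (hle _ _ h.symm.subset)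
  -- the homomorphism `f`
  let g : gens m c a → B := fun z => Classical.choose z.2
  have hg : ∀ z : gens m c a, emb m c a (g z) = z.1 := fun z => Classical.choose_spec z.2
  have hg' : ∀ x : B, ∀ hx : emb m c a x ∈ gens m c a, g ⟨emb m c a x, hx⟩ = x :=
    fun x hx => hinj (hg _)
  let f : BoundedLatticeHom (gens m c a) B :=
    { toFun := g
      map_sup' := by
        intro x y
        apply hinj
        rw [hg]
        apply Subtype.ext
        change ((x.1 : Set (Pt c a)) ∪ y.1) = tr c a (g x ⊔ g y)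
        rw [tr_sup, ← hg x, ← hg y]
        simp only [hg]
        rw [← hg x, ← hg y]
        rfl
      map_inf' := by
        intro x y
        apply hinj
        rw [hg]
        apply Subtype.ext
        change ((x.1 : Set (Pt c a)) ∩ y.1) = tr c a (g x ⊓ g y)
        rw [tr_inf, ← hg x, ← hg y]
        simp only [hg]
        rw [← hg x, ← hg y]
        rfl
      map_top' := by
        apply hinj
        rw [hg]
        apply Subtype.ext
        exact (tr_top c a).symm
      map_bot' := by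
        apply hinj
        rw [hg]
        apply Subtype.ext
        exact (tr_bot c a).symm }
  have hfg : ∀ z, f z = g z := fun z => rfl
  -- condition (a')
  have hcond : ConditionA m (gens m c a) f := by
    intro s hs hglb
    apply hkey
    intro P
    by_contra hcon
    push Not at hcon
    -- the intersection of the family is a nonempty element of the field
    have hsub : ((fun y : fld m c a => (y : Set (Pt c a))) ''
        ((fun x : gens m c a => (x : fld m c a)) '' s)) ⊆ (fld m c a : Set (Set (Pt c a))) := by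
      rintro _ ⟨y, _, rfl⟩
      exact y.2
    have hcard : Cardinal.mk ((fun y : fld m c a => (y : Set (Pt c a))) ''
        ((fun x : gens m c a => (x : fld m c a)) '' s)) ≤ m :=
      Cardinal.mk_image_le.trans (Cardinal.mk_image_le.trans hs)
    have hglb' := isGLB_fld m c a ((fun x : gens m c a => (x : fld m c a)) '' s)
      ⟨_, sInter_mem_fld m c a _ hsub hcard⟩ rfl
    have heq := hglb.unique hglb'
    have hP : P ∈ ((⊥ : fld m c a) : Set (Pt c a)) := by
      rw [heq]
      rintro _ ⟨_, ⟨z, hz, rfl⟩, rfl⟩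
      have := hcon (f z) ⟨z, hz, rfl⟩
      have h2 : tr c a (g z) = ((z : fld m c a) : Set (Pt c a)) := congrArg Subtype.val (hg z)
      change P ∈ ((z : fld m c a) : Set (Pt c a))
      rw [← h2]
      exact this
    exact hP
  obtain ⟨h, hh, hhf⟩ := hext (fld m c a) (fld_isMAlgebra m c a) (gens m c a)
    (gens_generates m c a) f hcond
  have hemb : ∀ x : B, h (emb m c a x) = x := by
    intro x
    have := hhf ⟨emb m c a x, ⟨x, rfl⟩⟩
    rw [this, hfg]
    exact hg' x _
  -- the sets `D t`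
  have hDcard : ∀ t, Cardinal.mk (Set.range fun s => (emb m c a (c ⊓ (a t s)ᶜ))) ≤ m :=
    fun t => Cardinal.mk_range_le.trans hS
  have hD : ∀ t, ∃ D : fld m c a, (D : Set (Pt c a)) = tr c a c ∩ ⋂ s, (tr c a (a t s))ᶜ := by
    intro t
    have hsub : (Set.range fun s => (tr c a (a t s))ᶜ) ⊆ (fld m c a : Set (Set (Pt c a))) := by
      rintro _ ⟨s, rfl⟩
      exact (fld m c a).compl_mem (tr_mem_fld m c a _)
    have h1 := sInter_mem_fld m c a _ hsub (Cardinal.mk_range_le.trans hS)
    exact ⟨⟨_, (fld m c a).inf_mem (tr_mem_fld m c a c) h1⟩, by rw [← Set.sInter_range]; rfl⟩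
  choose D hD using hD
  have hD0 : ∀ t, h (D t) = ⊥ := by
    intro t
    -- `h (D t) ≤ c ⊓ (a t s)ᶜ` for each `s`
    have h1 : ∀ s, h (D t) ≤ (a t s)ᶜ := by
      intro s
      rw [← hemb (a t s)ᶜ]
      apply OrderHomClass.mono h
      change (D t : Set (Pt c a)) ⊆ tr c a ((a t s)ᶜ)
      rw [hD]
      intro P hP
      rw [tr_compl]
      exact Set.mem_iInter.1 hP.2 s
    have h2 : (⊤ : B) ≤ (h (D t))ᶜ := by
      apply (ha t).2
      rintro _ ⟨s, rfl⟩
      exact le_compl_comm.1 (h1 s)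
    have h3 : (h (D t))ᶜ = ⊤ := top_le_iff.1 h2
    exact compl_eq_top.1 h3
  -- their union is the trace of `c`
  have hlub : IsLUB (Set.range D) (emb m c a c) := by
    apply isLUB_fld
    ext P
    constructor
    · intro hP
      rcases P.2.2 with hcP | ⟨t, ht⟩
      · exact absurd hcP hP
      · refine ⟨_, ⟨D t, ⟨t, rfl⟩, rfl⟩, ?_⟩
        change P ∈ (D t : Set (Pt c a))
        rw [hD]
        refine ⟨hP, Set.mem_iInter.2 fun s => ?_⟩
        exact fun hcon => hcon (ht s)
    · rintro ⟨_, ⟨_, ⟨t, rfl⟩, rfl⟩, hP⟩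
      change P ∈ (D t : Set (Pt c a)) at hP
      rw [hD] at hP
      exact hP.1
  have hlub' := (hh (Set.range D) (Cardinal.mk_range_le.trans hT) (emb m c a c)).1 hlub
  rw [hemb] at hlub'
  have : c ≤ ⊥ := hlub'.2 (by
    rintro _ ⟨_, ⟨t, rfl⟩, rfl⟩
    exact (hD0 t).le)
  exact hc0 (le_bot_iff.1 this)

end Pool.Agent.Results.MP_0b62d6_lc.WeakExtension
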